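import Mathlib

set_option autoImplicit false

namespace Pool.Agent.Helper602.MK

open Finset

/-- e(x) = exp(2 pi i x) -/
noncomputable def ee (x : ℝ) : ℂ := Complex.exp (2 * Real.pi * x * Complex.I)

/-- theta is within Q/M of a fraction with denominator at most Q -/
def Major (Q M θ : ℝ) : Prop :=
  ∃ q : ℕ, 1 ≤ q ∧ (q : ℝ) ≤ Q ∧ ∃ a : ℤ, |θ - (a : ℝ) / q| ≤ Q / M

/-- all prime factors of n are at least y -/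
def Rough (y n : ℕ) : Prop := ∀ p : ℕ, p.Prime → p ∣ n → y ≤ p

open Classical in
/-- rough numbers up to M -/
noncomputable def rgh (y M : ℕ) : Finset ℕ := (Icc 1 M).filter (fun m => Rough y m)

/-- primes in (sqrt k, k] -/
def PP (k : ℕ) : Finset ℕ := (Icc 1 k).filter (fun p => p.Prime ∧ k < p ^ 2)

/-- indicator of primes on the integers -/
def ip (z : ℤ) : ℝ := if Nat.Prime z.toNat then 1 else 0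

/-- J1: exponential sums over rough numbers (Brun-Hooley) -/
def J1Stmt : Prop := ∀ ε : ℝ, 0 < ε → ∃ A : ℕ, 1 ≤ A ∧ ∃ Q : ℝ, 1 ≤ Q ∧ ∃ y0 : ℕ, 2 ≤ y0 ∧
  ∀ y M : ℕ, y0 ≤ y → y ^ A ≤ M → ∀ θ : ℝ, ¬ Major Q M θ →
    ‖∑ m ∈ rgh y M, ee (θ * m)‖ ≤ ε * M / (A * Real.log y)

/-- block of primes p with p^(2^j) < y <= p^(2^(j+1)) -/
def blk (y j : ℕ) : Finset ℕ := (range y).filter (fun p => p.Prime ∧ p ^ 2 ^ j < y ∧ y ≤ p ^ 2 ^ (j + 1))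

/-- J1a: Mertens bounds for the blocks -/
def J1aStmt : Prop := ∃ C : ℝ, 1 ≤ C ∧
  (∀ y j : ℕ, 2 ≤ y → ∑ p ∈ blk y j, (1 : ℝ) / p ≤ C) ∧
  (∀ y j : ℕ, 2 ≤ y → 1 / C ≤ ∏ p ∈ blk y j, (1 - (1 : ℝ) / p)) ∧
  (∀ y : ℕ, 2 ≤ y → ∏ p ∈ (range y).filter Nat.Prime, (1 - (1 : ℝ) / p) ≤ C / Real.log y)

/-- J1b: Brun-Hooley weights -/
def J1bStmt : Prop := ∃ C : ℝ, 1 ≤ C ∧ ∃ b0 : ℕ, ∀ b : ℕ, b0 ≤ b → ∀ y : ℕ, 2 ≤ y →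
  ∃ (D : Finset ℕ) (w : ℕ → ℝ), (∀ d ∈ D, 1 ≤ d ∧ d ≤ y ^ (4 * b + 5) ∧ |w d| ≤ 1) ∧
    (∀ q : ℕ, 1 ≤ q → |∑ d ∈ D.filter (fun d => q ∣ d), w d / d| ≤
      C * C ^ (q.primeFactors.card) / (q * Real.log y)) ∧
    (∀ M : ℕ, ∑ m ∈ Icc 1 M, |(open Classical in if Rough y m then (1 : ℝ) else 0) -
        ∑ d ∈ D.filter (fun d => d ∣ m), w d| ≤
      (C ^ b / (b.factorial : ℝ)) * M / Real.log y + C * (y : ℝ) ^ (4 * b + 6))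

/-- J2: sieve upper bound for rough numbers in an interval -/
def J2Stmt : Prop := ∃ C : ℝ, 1 ≤ C ∧ ∀ y : ℕ, 2 ≤ y → ∀ X Y : ℕ, y ≤ Y →
  (((rgh y (X + Y)).filter (fun m => X < m)).card : ℝ) ≤ C * Y / Real.log y

/-- J3: Brun-Titchmarsh for a general modulus -/
def J3Stmt : Prop := ∃ C : ℝ, 1 ≤ C ∧ ∀ a q N : ℕ, 1 ≤ q → 2 ≤ N →
  (((range N).filter (fun t => (a + t * q).Prime)).card : ℝ) ≤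
    C * ((q : ℝ) / (Nat.totient q : ℝ)) * N / Real.log N

/-- J4a: few pairs of primes p, p' in [P,2P] with alpha (p - p') on a major arc -/
def J4aStmt : Prop := ∀ (A : ℕ) (Q1 κ : ℝ), 1 ≤ Q1 → 0 < κ → ∃ Q0 : ℝ, 1 ≤ Q0 ∧ ∃ P0 : ℕ, 2 ≤ P0 ∧
  ∀ P M N : ℕ, P0 ≤ P → P ≤ M ^ A → 1 ≤ N → N ≤ 2 * M * P → ∀ α : ℝ, ¬ Major Q0 N α →
    ∀ B : Finset (ℕ × ℕ), (∀ x ∈ B, x.1.Prime ∧ x.2.Prime ∧ P ≤ x.1 ∧ x.1 ≤ 2 * P ∧ P ≤ x.2 ∧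
      x.2 ≤ 2 * P ∧ Major Q1 M (α * ((x.1 : ℝ) - x.2))) →
    (B.card : ℝ) ≤ κ * ((P : ℝ) / Real.log P) ^ 2

/-- J4b: one block of the bilinear form -/
def J4bStmt : Prop := ∀ (A : ℕ) (κ : ℝ), 0 < κ → ∃ Q0 : ℝ, 1 ≤ Q0 ∧ ∃ z0 : ℕ, 2 ≤ z0 ∧
  ∀ z P M N : ℕ, z0 ≤ z → z ≤ P → z ≤ M → P ≤ z ^ A → 1 ≤ N → N ≤ 2 * M * P → ∀ α : ℝ, ¬ Major Q0 N α →
    ∀ P' : ℕ, P' ≤ 2 * P → ∀ c : ℕ → ℂ, (∀ m, ‖c m‖ ≤ 1) →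
    ‖∑ m ∈ rgh z M, c m * ∑ p ∈ (Ico P P').filter Nat.Prime, ee (α * ((p : ℝ) * m))‖ ≤
      κ * M * P / (Real.log P * Real.log z)

/-- J4: primes on minor arcs, log-free -/
def J4Stmt : Prop := ∀ η : ℝ, 0 < η → ∃ Q : ℝ, 1 ≤ Q ∧ ∃ N0 : ℕ, 2 ≤ N0 ∧ ∀ N : ℕ, N0 ≤ N →
  ∀ α : ℝ, ¬ Major Q N α → ‖∑ p ∈ (Icc 1 N).filter Nat.Prime, ee (α * p)‖ ≤ η * N / Real.log N

/-- reduced fractions a/q, stored as (q, a), with q squarefree, q <= Q, all primes dividing q > z -/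
def RR (z Q : ℕ) : Finset (ℕ × ℕ) := ((Icc 1 Q) ×ˢ (range Q)).filter
  (fun x => Squarefree x.1 ∧ (∀ p ∈ x.1.primeFactors, z < p) ∧ x.2 < x.1 ∧ Nat.Coprime x.2 x.1)

/-- sum of 1/phi(q) -/
noncomputable def GG (z Q : ℕ) : ℝ :=
  ∑ q ∈ (Icc 1 Q).filter (fun q => Squarefree q ∧ ∀ p ∈ q.primeFactors, z < p),
    (1 : ℝ) / (Nat.totient q : ℝ)

/-- J5a: additive correlations of the weights 1/phi(q) on Farey fractions -/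
def J5aStmt : Prop := ∀ z Q : ℕ, 3 ≤ z → 1 ≤ Q → ∀ β : ℝ,
  ∑ x ∈ RR z Q, ∑ x' ∈ RR z Q, (open Classical in
    if ∃ n : ℤ, (x.2 : ℝ) / x.1 - (x'.2 : ℝ) / x'.1 - β = n then
      (1 : ℝ) / ((Nat.totient x.1 : ℝ) * (Nat.totient x'.1 : ℝ)) else 0) ≤
  (open Classical in if ∃ n : ℤ, β = n then GG z Q else 3 * GG z Q / z)

/-- J5c: lower bound for G -/
def J5cStmt : Prop := ∃ c : ℝ, 0 < c ∧ ∀ z Q : ℕ, 2 ≤ z → 2 ≤ Q →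
  c * Real.log Q / Real.log z ≤ GG z Q

/-- J5: large sieve for primes with few points -/
def J5Stmt : Prop := ∃ C : ℝ, 1 ≤ C ∧ ∃ k0 : ℕ, 2 ≤ k0 ∧ ∀ k : ℕ, k0 ≤ k → ∀ M : ℕ, k ≤ M →
  M ≤ 100 * k → ∀ X : Finset ℕ, X ⊆ range M → X.Nonempty → ∀ f : ℕ → ℂ,
    ∑ ξ ∈ X, ‖∑ p ∈ PP k, f p * ee ((ξ : ℝ) * p / M)‖ ^ 2 ≤
      C * ((k : ℝ) / Real.log k) * Real.log (2 * X.card) * ∑ p ∈ PP k, ‖f p‖ ^ 2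

/-- J6: restriction estimate with exponent 5/2 -/
def J6Stmt : Prop := ∃ C : ℝ, 1 ≤ C ∧ ∃ k0 : ℕ, 2 ≤ k0 ∧ ∀ k : ℕ, k0 ≤ k → ∀ M : ℕ, k ≤ M →
  M ≤ 100 * k → ∀ f : ℕ → ℂ, (∀ p, ‖f p‖ ≤ 1) →
    ∑ ξ ∈ range M, ‖∑ p ∈ PP k, f p * ee ((ξ : ℝ) * p / M)‖ ^ (5 / 2 : ℝ) ≤
      C * ((k : ℝ) / Real.log k) ^ (5 / 2 : ℝ)

/-- J7: trilinear estimate -/
def J7Stmt : Prop := ∀ η : ℝ, 0 < η → ∀ a b : ℤ, a.natAbs ∈ ({1, 2, 4} : Finset ℕ) →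
  b.natAbs ∈ ({1, 2, 4} : Finset ℕ) → ∃ Q : ℕ, 2 ≤ Q ∧ ∃ τ : ℝ, 0 < τ ∧ τ < 1 / 2 ∧ ∃ k0 : ℕ, 2 ≤ k0 ∧
  ∀ k : ℕ, k0 ≤ k → ∀ f g : ℕ → ℝ, (∀ p, |f p| ≤ 1) → (∀ p, |g p| ≤ 1) →
    |∑ x ∈ PP k, ∑ y ∈ PP k, f x * g y * (ip (a * x + b * y) -
        (1 / (⌊τ * k / (Q.factorial : ℝ)⌋₊ : ℝ)) *
          ∑ j ∈ Icc 1 ⌊τ * k / (Q.factorial : ℝ)⌋₊, ip (a * x + b * y + j * Q.factorial))| ≤
      η * (k : ℝ) ^ 2 / (Real.log k) ^ 3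

/-- primes p <= k with p/k in one of the intervals -/
noncomputable def win (k : ℕ) (I : Finset (ℝ × ℝ)) : Finset ℕ := by
  classical
  exact (Icc 1 k).filter (fun p => p.Prime ∧ ∃ J ∈ I, J.1 * k < p ∧ (p : ℝ) ≤ J.2 * k)

/-- total length of the intervals -/
noncomputable def len (I : Finset (ℝ × ℝ)) : ℝ := ∑ J ∈ I, (J.2 - J.1)

/-- a family of disjoint intervals in [1/10,1] -/
def Wok (I : Finset (ℝ × ℝ)) : Prop :=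
  (∀ J ∈ I, 1 / 10 ≤ J.1 ∧ J.1 < J.2 ∧ J.2 ≤ 1) ∧
  (∀ J ∈ I, ∀ J' ∈ I, J ≠ J' → J.2 ≤ J'.1 ∨ J'.2 ≤ J.1)

/-- J8: almost all degrees are regular -/
def J8Stmt : Prop := ∀ (IX IY : Finset (ℝ × ℝ)) (a b : ℤ), Wok IX → Wok IY →
  a.natAbs ∈ ({1, 2, 4} : Finset ℕ) → b.natAbs ∈ ({1, 2, 4} : Finset ℕ) → Odd (a + b) →
  (∀ x y : ℝ, (∃ J ∈ IX, J.1 ≤ x ∧ x ≤ J.2) → (∃ J ∈ IY, J.1 ≤ y ∧ y ≤ J.2) →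
    1 / 10 ≤ a * x + b * y) →
  ∀ η : ℝ, 0 < η → ∃ ρ : ℝ, 1 ≤ ρ ∧ ρ ≤ 2 ∧ ∃ k0 : ℕ, 2 ≤ k0 ∧ ∀ k : ℕ, k0 ≤ k →
    (∑ x ∈ win k IX, |∑ y ∈ win k IY, ip (a * x + b * y) - ρ * len IY * k / (Real.log k) ^ 2| ≤
      η * (k : ℝ) ^ 2 / (Real.log k) ^ 3) ∧
    (∑ y ∈ win k IY, |∑ x ∈ win k IX, ip (a * x + b * y) - ρ * len IX * k / (Real.log k) ^ 2| ≤
      η * (k : ℝ) ^ 2 / (Real.log k) ^ 3)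

/-- J9: sieve bound for pairs -/
def J9Stmt : Prop := ∃ C : ℝ, 1 ≤ C ∧ ∃ k0 : ℕ, 2 ≤ k0 ∧ ∀ k : ℕ, k0 ≤ k → ∀ p : ℕ, p.Prime →
  k ≤ 10 * p → p ≤ 10 * k → ∀ c s : ℤ, c.natAbs ∈ ({2, 4} : Finset ℕ) → s.natAbs = 1 →
  ∀ L ℓ : ℕ, k ≤ ℓ ^ 2 → ℓ ≤ 10 * k → L ≤ 10 * k →
    (((Ioc L (L + ℓ)).filter (fun x : ℕ => x.Prime ∧ Nat.Prime (c * x + s * p : ℤ).toNat)).card : ℝ) ≤
      C * ℓ / (Real.log k) ^ 2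

/-- J12: number of primes in windows (prime number theorem) -/
def J12Stmt : Prop := ∀ I : Finset (ℝ × ℝ), Wok I →
  Filter.Tendsto (fun k : ℕ => ((win k I).card : ℝ) * Real.log k / k) Filter.atTop (nhds (len I))

/-- J13: prime number theorem in residue classes -/
def J13Stmt : Prop := ∀ W c : ℕ, 1 ≤ W → Nat.Coprime c W →
  Filter.Tendsto (fun N : ℕ => (((Icc 1 N).filter (fun p => p.Prime ∧ p ≡ c [MOD W])).card : ℝ) *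
    Real.log N / N) Filter.atTop (nhds (1 / (Nat.totient W : ℝ)))

end Pool.Agent.Helper602.MK
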