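import Mathlib
import Pool.Agent.H27.G.R_seed8.Helper602.MK.Defs

set_option autoImplicit false

namespace Pool.Agent.Helper602.MK.N_J5b

open Finset


/-! ### basic facts on `ee` -/

theorem ee_eq (x : ℝ) : ee x = Complex.exp (((2 * Real.pi * x : ℝ) : ℂ) * Complex.I) := by
  unfold ee
  push_cast
  rfl

theorem norm_ee (x : ℝ) : ‖ee x‖ = 1 := by
  rw [ee_eq]
  exact Complex.norm_exp_ofReal_mul_I _

theorem ee_add (x y : ℝ) : ee (x + y) = ee x * ee y := by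
  unfold ee
  rw [← Complex.exp_add]
  congr 1
  push_cast
  ring

theorem ee_zero : ee 0 = 1 := by
  unfold ee
  simp

theorem ee_nat_mul (n : ℕ) (x : ℝ) : ee (n * x) = ee x ^ n := by
  unfold ee
  rw [← Complex.exp_nat_mul]
  congr 1
  push_cast
  ring

theorem ee_conj (x : ℝ) : (starRingEnd ℂ) (ee x) = ee (-x) := by
  rw [ee_eq, ee_eq, ← Complex.exp_conj, map_mul, Complex.conj_I, Complex.conj_ofReal]
  congr 1
  push_cast
  ring

theorem ee_int (n : ℤ) : ee n = 1 := by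
  unfold ee
  rw [Complex.exp_eq_one_iff]
  refine ⟨n, ?_⟩
  push_cast
  ring

theorem ee_eq_one_iff (x : ℝ) : ee x = 1 ↔ ∃ n : ℤ, x = n := by
  constructor
  · intro h
    unfold ee at h
    rw [Complex.exp_eq_one_iff] at h
    obtain ⟨n, hn⟩ := h
    refine ⟨n, ?_⟩
    have h2 : ((2 * Real.pi * x : ℝ) : ℂ) * Complex.I = ((n * (2 * Real.pi) : ℝ) : ℂ) * Complex.I := by
      push_cast
      rw [hn]
      ring
    have h3 := mul_right_cancel₀ Complex.I_ne_zero h2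
    have h4 : (2 * Real.pi * x : ℝ) = n * (2 * Real.pi) := by exact_mod_cast h3
    have hp := Real.pi_pos
    have : (2 * Real.pi) * x = (2 * Real.pi) * n := by linarith
    exact mul_left_cancel₀ (by positivity) this
  · rintro ⟨n, rfl⟩
    exact ee_int n

theorem ee_add_int (x : ℝ) (n : ℤ) : ee (x + n) = ee x := by
  rw [ee_add, ee_int, mul_one]

theorem norm_one_sub_ee (t : ℝ) : ‖1 - ee t‖ = 2 * |Real.sin (Real.pi * t)| := by
  have h := Complex.norm_exp_I_mul_ofReal_sub_one (2 * Real.pi * t)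
  rw [mul_comm Complex.I] at h
  rw [norm_sub_rev, ee_eq, h, Real.norm_eq_abs, abs_mul]
  congr 1
  · simp
  · congr 2
    ring

/-! ### squares of norms -/

theorem normsq_sum {α : Type*} (A : Finset α) (a : α → ℂ) :
    ((‖∑ x ∈ A, a x‖ ^ 2 : ℝ) : ℂ) = ∑ x ∈ A, ∑ y ∈ A, a x * (starRingEnd ℂ) (a y) := by
  rw [← Complex.normSq_eq_norm_sq, ← Complex.mul_conj, map_sum, Finset.sum_mul_sum]

/-- Dirichlet kernel, squared -/
noncomputable def KD (L : ℕ) (t : ℝ) : ℝ := ‖∑ j ∈ range L, ee (j * t)‖ ^ 2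

theorem KD_nonneg (L : ℕ) (t : ℝ) : 0 ≤ KD L t := by
  unfold KD
  positivity

theorem KD_le (L : ℕ) (t : ℝ) : KD L t ≤ (L : ℝ) ^ 2 := by
  unfold KD
  apply pow_le_pow_left₀ (norm_nonneg _)
  calc ‖∑ j ∈ range L, ee (j * t)‖ ≤ ∑ j ∈ range L, ‖ee (j * t)‖ := norm_sum_le _ _
    _ = L := by simp [norm_ee]

theorem KD_add_int (L : ℕ) (t : ℝ) (n : ℤ) : KD L (t + n) = KD L t := by
  unfold KD
  congr 2
  apply Finset.sum_congr rfl
  intro j _
  have : (j : ℝ) * (t + n) = j * t + ((j * n : ℤ) : ℝ) := by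
    push_cast
    ring
  rw [this, ee_add_int]

theorem KD_neg (L : ℕ) (t : ℝ) : KD L (-t) = KD L t := by
  unfold KD
  have : ∑ j ∈ range L, ee (j * -t) = (starRingEnd ℂ) (∑ j ∈ range L, ee (j * t)) := by
    rw [map_sum]
    apply Finset.sum_congr rfl
    intro j _
    rw [ee_conj]
    congr 1
    ring
  rw [this, RCLike.norm_conj]

theorem KD_double (L : ℕ) (t : ℝ) :
    ((KD L t : ℝ) : ℂ) = ∑ j ∈ range L, ∑ j' ∈ range L, ee (((j : ℝ) - j') * t) := by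
  unfold KD
  rw [normsq_sum]
  apply Finset.sum_congr rfl
  intro j _
  apply Finset.sum_congr rfl
  intro j' _
  rw [ee_conj, ← ee_add]
  congr 1
  ring

theorem KD_far (L : ℕ) (t δ : ℝ) (hδ : 0 < δ) (h : ∀ n : ℤ, δ ≤ |t - n|) :
    KD L t ≤ 1 / (4 * δ ^ 2) := by
  obtain ⟨u, hu⟩ : ∃ u : ℝ, u = t - round t := ⟨_, rfl⟩
  have hu1 : |u| ≤ 1 / 2 := by rw [hu]; exact abs_sub_round t
  have hu2 : δ ≤ |u| := by rw [hu]; exact h _
  have ht : t = u + (round t : ℤ) := by rw [hu]; ring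
  rw [ht, KD_add_int]
  have hu0 : 0 < |u| := lt_of_lt_of_le hδ hu2
  have hpi := Real.pi_pos
  have hsin : 2 * |u| ≤ |Real.sin (Real.pi * u)| := by
    have h1 := Real.mul_abs_le_abs_sin (x := Real.pi * u) (by
      rw [abs_mul, abs_of_pos hpi]
      nlinarith)
    rw [abs_mul, abs_of_pos hpi] at h1
    have e : 2 / Real.pi * (Real.pi * |u|) = 2 * |u| := by field_simp
    rw [e] at h1
    exact h1
  have hne : ee u ≠ 1 := by
    intro h1
    have h2 := norm_one_sub_ee u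
    rw [h1, sub_self, norm_zero] at h2
    linarith
  have h3 : ‖∑ j ∈ range L, ee (j * u)‖ ≤ 1 / (2 * δ) := by
    have e : ∑ j ∈ range L, ee (j * u) = ∑ j ∈ range L, ee u ^ j := by
      apply Finset.sum_congr rfl
      intro j _
      rw [ee_nat_mul]
    rw [e, geom_sum_eq hne, norm_div, norm_sub_rev (ee u) 1, norm_one_sub_ee]
    have h4 : ‖ee u ^ L - 1‖ ≤ 2 := by
      calc ‖ee u ^ L - 1‖ ≤ ‖ee u ^ L‖ + ‖(1 : ℂ)‖ := norm_sub_le _ _
        _ = 2 := by rw [norm_pow, norm_ee, one_pow, norm_one]; norm_num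
    have h5 : 0 < 2 * |Real.sin (Real.pi * u)| := by linarith
    rw [div_le_div_iff₀ h5 (by positivity)]
    nlinarith
  unfold KD
  calc ‖∑ j ∈ range L, ee (j * u)‖ ^ 2 ≤ (1 / (2 * δ)) ^ 2 :=
        pow_le_pow_left₀ (norm_nonneg _) h3 2
    _ = 1 / (4 * δ ^ 2) := by
        rw [div_pow, mul_pow]
        norm_num

/-- the abstract large sieve inequality in the dual form -/
theorem dual_sieve {α : Type*} (A : Finset α) (d : α → ℂ) (θ : α → ℝ) (k : ℕ) :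
    (k : ℝ) * ∑ p ∈ PP k, ‖∑ a ∈ A, d a * ee (p * θ a)‖ ^ 2 ≤
      ∑ a ∈ A, ∑ b ∈ A, ‖d a‖ * ‖d b‖ * KD (2 * k) (θ a - θ b) := by
  obtain ⟨H, hH⟩ : ∃ H : ℝ → ℂ, H = fun n => ∑ a ∈ A, d a * ee (n * θ a) := ⟨_, rfl⟩
  have h1 : ∀ j' ∈ range k, ∑ p ∈ PP k, ‖H p‖ ^ 2 ≤ ∑ j ∈ range (2 * k), ‖H ((j : ℝ) - j')‖ ^ 2 := by
    intro j' hj'
    rw [Finset.mem_range] at hj'
    have e : ∑ p ∈ PP k, ‖H p‖ ^ 2 = ∑ j ∈ (PP k).image (fun p => j' + p), ‖H ((j : ℝ) - j')‖ ^ 2 := by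
      rw [Finset.sum_image (fun a _ b _ hab => by simpa using hab)]
      apply Finset.sum_congr rfl
      intro p _
      congr 3
      push_cast
      ring
    rw [e]
    apply Finset.sum_le_sum_of_subset_of_nonneg
    · intro j hj
      rw [Finset.mem_image] at hj
      obtain ⟨p, hp, rfl⟩ := hj
      unfold PP at hp
      rw [Finset.mem_filter, Finset.mem_Icc] at hp
      rw [Finset.mem_range]
      omega
    · intro _ _ _
      positivity
  have h2 : (k : ℝ) * ∑ p ∈ PP k, ‖H p‖ ^ 2 ≤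
      ∑ j' ∈ range (2 * k), ∑ j ∈ range (2 * k), ‖H ((j : ℝ) - j')‖ ^ 2 := by
    calc (k : ℝ) * ∑ p ∈ PP k, ‖H p‖ ^ 2 = ∑ j' ∈ range k, ∑ p ∈ PP k, ‖H p‖ ^ 2 := by
          rw [Finset.sum_const, Finset.card_range, nsmul_eq_mul]
      _ ≤ ∑ j' ∈ range k, ∑ j ∈ range (2 * k), ‖H ((j : ℝ) - j')‖ ^ 2 := Finset.sum_le_sum h1
      _ ≤ _ := by
          apply Finset.sum_le_sum_of_subset_of_nonneg
          · intro j hj
            rw [Finset.mem_range] at hj ⊢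
            omega
          · intro _ _ _
            positivity
  have h3 : ((∑ j' ∈ range (2 * k), ∑ j ∈ range (2 * k), ‖H ((j : ℝ) - j')‖ ^ 2 : ℝ) : ℂ) =
      ∑ a ∈ A, ∑ b ∈ A, d a * (starRingEnd ℂ) (d b) * ((KD (2 * k) (θ a - θ b) : ℝ) : ℂ) := by
    rw [Complex.ofReal_sum]
    simp only [Complex.ofReal_sum]
    have e1 : ∀ j' j : ℕ, ((‖H ((j : ℝ) - j')‖ ^ 2 : ℝ) : ℂ) = ∑ a ∈ A, ∑ b ∈ A,
        d a * (starRingEnd ℂ) (d b) * ee (((j : ℝ) - j') * (θ a - θ b)) := by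
      intro j' j
      rw [hH, normsq_sum]
      apply Finset.sum_congr rfl
      intro a _
      apply Finset.sum_congr rfl
      intro b _
      rw [map_mul, ee_conj]
      have e2 : ((j : ℝ) - j') * (θ a - θ b) = ((j : ℝ) - j') * θ a + -(((j : ℝ) - j') * θ b) := by
        ring
      rw [e2, ee_add]
      ring
    simp only [e1, KD_double]
    rw [Finset.sum_comm]
    have e3 : ∀ j : ℕ, ∑ j' ∈ range (2 * k), ∑ a ∈ A, ∑ b ∈ A,
        d a * (starRingEnd ℂ) (d b) * ee (((j : ℝ) - j') * (θ a - θ b)) =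
        ∑ a ∈ A, ∑ b ∈ A, ∑ j' ∈ range (2 * k),
        d a * (starRingEnd ℂ) (d b) * ee (((j : ℝ) - j') * (θ a - θ b)) := by
      intro j
      rw [Finset.sum_comm]
      apply Finset.sum_congr rfl
      intro a _
      rw [Finset.sum_comm]
    simp only [e3]
    rw [Finset.sum_comm]
    apply Finset.sum_congr rfl
    intro a _
    rw [Finset.sum_comm]
    apply Finset.sum_congr rfl
    intro b _
    rw [Finset.mul_sum]
    apply Finset.sum_congr rfl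
    intro j _
    rw [Finset.mul_sum]
  have h4 : ∑ j' ∈ range (2 * k), ∑ j ∈ range (2 * k), ‖H ((j : ℝ) - j')‖ ^ 2 ≤
      ∑ a ∈ A, ∑ b ∈ A, ‖d a‖ * ‖d b‖ * KD (2 * k) (θ a - θ b) := by
    have h5 : 0 ≤ ∑ j' ∈ range (2 * k), ∑ j ∈ range (2 * k), ‖H ((j : ℝ) - j')‖ ^ 2 :=
      Finset.sum_nonneg (fun _ _ => Finset.sum_nonneg (fun _ _ => by positivity))
    have h6 : ∑ j' ∈ range (2 * k), ∑ j ∈ range (2 * k), ‖H ((j : ℝ) - j')‖ ^ 2 =
        ‖((∑ j' ∈ range (2 * k), ∑ j ∈ range (2 * k), ‖H ((j : ℝ) - j')‖ ^ 2 : ℝ) : ℂ)‖ := by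
      rw [Complex.norm_real, Real.norm_eq_abs, abs_of_nonneg h5]
    rw [h6, h3]
    refine (norm_sum_le _ _).trans (Finset.sum_le_sum fun a _ => ?_)
    refine (norm_sum_le _ _).trans (Finset.sum_le_sum fun b _ => ?_)
    rw [norm_mul, norm_mul, RCLike.norm_conj, Complex.norm_real, Real.norm_eq_abs,
      abs_of_nonneg (KD_nonneg _ _)]
  have h7 := h2.trans h4
  rw [hH] at h7
  exact h7

/-- duality -/
theorem duality {α β : Type*} (X : Finset α) (P : Finset β) (E : α → β → ℂ) (B : ℝ)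
    (hB : 0 ≤ B) (h : ∀ c : α → ℂ, ∑ p ∈ P, ‖∑ x ∈ X, c x * E x p‖ ^ 2 ≤ B * ∑ x ∈ X, ‖c x‖ ^ 2) (f : β → ℂ) :
    ∑ x ∈ X, ‖∑ p ∈ P, f p * E x p‖ ^ 2 ≤ B * ∑ p ∈ P, ‖f p‖ ^ 2 := by
  obtain ⟨F, hF⟩ : ∃ F : α → ℂ, F = fun x => ∑ p ∈ P, f p * E x p := ⟨_, rfl⟩
  obtain ⟨S, hS⟩ : ∃ S : ℝ, S = ∑ x ∈ X, ‖F x‖ ^ 2 := ⟨_, rfl⟩
  obtain ⟨g, hg⟩ : ∃ g : β → ℂ, g = fun p => ∑ x ∈ X, (starRingEnd ℂ) (F x) * E x p := ⟨_, rfl⟩
  have hS0 : 0 ≤ S := by rw [hS]; positivity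
  have h1 : ((S : ℝ) : ℂ) = ∑ p ∈ P, f p * g p := by
    rw [hS, hg]
    push_cast
    have e1 : ∀ x, ((‖F x‖ : ℝ) : ℂ) ^ 2 = ∑ p ∈ P, f p * ((starRingEnd ℂ) (F x) * E x p) := by
      intro x
      rw [← Complex.conj_mul']
      conv_lhs => rw [hF]
      simp only
      rw [Finset.mul_sum]
      apply Finset.sum_congr rfl
      intro p _
      rw [hF]
      ring
    simp only [e1]
    rw [Finset.sum_comm]
    apply Finset.sum_congr rfl
    intro p _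
    rw [Finset.mul_sum]
  have h2 : S ≤ ∑ p ∈ P, ‖f p‖ * ‖g p‖ := by
    calc S = ‖((S : ℝ) : ℂ)‖ := by rw [Complex.norm_real, Real.norm_eq_abs, abs_of_nonneg hS0]
      _ ≤ ∑ p ∈ P, ‖f p * g p‖ := by rw [h1]; exact norm_sum_le _ _
      _ = ∑ p ∈ P, ‖f p‖ * ‖g p‖ := by simp only [norm_mul]
  have h3 : S ^ 2 ≤ (∑ p ∈ P, ‖f p‖ ^ 2) * ∑ p ∈ P, ‖g p‖ ^ 2 :=
    (pow_le_pow_left₀ hS0 h2 2).trans (Finset.sum_mul_sq_le_sq_mul_sq _ _ _)
  have h4 : ∑ p ∈ P, ‖g p‖ ^ 2 ≤ B * S := by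
    have := h (fun x => (starRingEnd ℂ) (F x))
    simp only [RCLike.norm_conj] at this
    rw [← hS] at this
    rw [hg]
    exact this
  have h5 : S * S ≤ (B * ∑ p ∈ P, ‖f p‖ ^ 2) * S := by
    calc S * S = S ^ 2 := by ring
      _ ≤ (∑ p ∈ P, ‖f p‖ ^ 2) * ∑ p ∈ P, ‖g p‖ ^ 2 := h3
      _ ≤ (∑ p ∈ P, ‖f p‖ ^ 2) * (B * S) := mul_le_mul_of_nonneg_left h4 (by positivity)
      _ = _ := by ring
  have h6 : S ≤ B * ∑ p ∈ P, ‖f p‖ ^ 2 := by
    rcases hS0.eq_or_lt with h0 | h0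
    · rw [← h0]
      positivity
    · exact le_of_mul_le_mul_right h5 h0
  rw [hS, hF] at h6
  exact h6

/-! ### sum of the kernel over multiples of `1/M` -/

theorem orth_sum (M : ℕ) (hM : 0 < M) (s : ℤ) (ξ : ℝ) :
    ‖∑ η ∈ range M, ee ((s : ℝ) * (ξ / M - (η : ℝ) / M))‖ = if (M : ℤ) ∣ s then (M : ℝ) else 0 := by
  have hM' : (M : ℝ) ≠ 0 := by positivity
  have e : ∀ η : ℕ, ee ((s : ℝ) * (ξ / M - (η : ℝ) / M)) =
      ee ((s : ℝ) * (ξ / M)) * ee (-((s : ℝ) / M)) ^ η := by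
    intro η
    rw [← ee_nat_mul, ← ee_add]
    congr 1
    ring
  simp only [e]
  rw [← Finset.mul_sum, norm_mul, norm_ee, one_mul]
  split_ifs with h
  · obtain ⟨c, hc⟩ := h
    have e1 : ee (-((s : ℝ) / M)) = 1 := by
      rw [ee_eq_one_iff]
      refine ⟨-c, ?_⟩
      rw [hc]
      push_cast
      field_simp
    rw [e1]
    simp
  · have e1 : ee (-((s : ℝ) / M)) ≠ 1 := by
      intro h1
      rw [ee_eq_one_iff] at h1
      obtain ⟨n, hn⟩ := h1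
      apply h
      refine ⟨-n, ?_⟩
      have h2 : (s : ℝ) = M * (-n) := by
        have : (s : ℝ) / M = -n := by linarith
        rw [div_eq_iff hM'] at this
        linarith
      exact_mod_cast h2
    have e2 : ee (-((s : ℝ) / M)) ^ M = 1 := by
      rw [← ee_nat_mul, ee_eq_one_iff]
      refine ⟨-s, ?_⟩
      push_cast
      field_simp
    rw [geom_sum_eq e1, e2, sub_self, zero_div, norm_zero]

theorem count_le (L M : ℕ) (hM : 0 < M) (hL : L ≤ 2 * M) (j : ℕ) :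
    ((range L).filter (fun j' : ℕ => (M : ℤ) ∣ ((j : ℤ) - j'))).card ≤ 2 := by
  have hsub : (range L).filter (fun j' : ℕ => (M : ℤ) ∣ ((j : ℤ) - j')) ⊆ {j % M, j % M + M} := by
    intro j' hj'
    rw [Finset.mem_filter, Finset.mem_range] at hj'
    obtain ⟨h1, h2⟩ := hj'
    have h3 : (j' : ℤ) ≡ j [ZMOD M] := (Int.modEq_iff_dvd).2 h2
    have h4 : j' ≡ j [MOD M] := Int.natCast_modEq_iff.1 h3
    have h5 : j' % M = j % M := h4
    have h6 := Nat.div_add_mod j' M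
    have h7 : j' / M < 2 := by
      rw [Nat.div_lt_iff_lt_mul hM]
      omega
    rw [Finset.mem_insert, Finset.mem_singleton]
    have h9 : j' / M = 0 ∨ j' / M = 1 := by
      generalize j' / M = w at h7
      omega
    rcases h9 with h8 | h8
    · left
      rw [h8, mul_zero, zero_add] at h6
      exact h6.symm.trans h5
    · right
      rw [h8, mul_one] at h6
      calc j' = M + j' % M := h6.symm
        _ = j % M + M := by rw [h5, add_comm]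
  exact (Finset.card_le_card hsub).trans Finset.card_le_two

theorem KD_sum (L M : ℕ) (hM : 0 < M) (hL : L ≤ 2 * M) (ξ : ℝ) :
    ∑ η ∈ range M, KD L (ξ / M - (η : ℝ) / M) ≤ 2 * L * M := by
  have h0 : 0 ≤ ∑ η ∈ range M, KD L (ξ / M - (η : ℝ) / M) :=
    Finset.sum_nonneg (fun _ _ => KD_nonneg _ _)
  have h1 : ((∑ η ∈ range M, KD L (ξ / M - (η : ℝ) / M) : ℝ) : ℂ) =
      ∑ j ∈ range L, ∑ j' ∈ range L, ∑ η ∈ range M,
        ee ((((j : ℤ) - j' : ℤ) : ℝ) * (ξ / M - (η : ℝ) / M)) := by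
    rw [Complex.ofReal_sum]
    simp only [KD_double]
    rw [Finset.sum_comm]
    apply Finset.sum_congr rfl
    intro j _
    rw [Finset.sum_comm]
    apply Finset.sum_congr rfl
    intro j' _
    apply Finset.sum_congr rfl
    intro η _
    push_cast
    rfl
  calc ∑ η ∈ range M, KD L (ξ / M - (η : ℝ) / M)
      = ‖((∑ η ∈ range M, KD L (ξ / M - (η : ℝ) / M) : ℝ) : ℂ)‖ := by
        rw [Complex.norm_real, Real.norm_eq_abs, abs_of_nonneg h0]
    _ ≤ ∑ j ∈ range L, ∑ j' ∈ range L, (if (M : ℤ) ∣ ((j : ℤ) - j') then (M : ℝ) else 0) := by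
        rw [h1]
        refine (norm_sum_le _ _).trans (Finset.sum_le_sum fun j _ => ?_)
        refine (norm_sum_le _ _).trans (Finset.sum_le_sum fun j' _ => ?_)
        rw [orth_sum M hM]
    _ ≤ ∑ j ∈ range L, 2 * (M : ℝ) := by
        apply Finset.sum_le_sum
        intro j _
        rw [← Finset.sum_filter, Finset.sum_const, nsmul_eq_mul]
        apply mul_le_mul_of_nonneg_right _ (by positivity)
        exact_mod_cast count_le L M hM hL j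
    _ = 2 * L * M := by
        rw [Finset.sum_const, Finset.card_range, nsmul_eq_mul]
        ring

/-! ### Ramanujan sums -/

open ArithmeticFunction in
theorem moebius_sum (n : ℕ) (hn : n ≠ 0) : ∑ d ∈ n.divisors, moebius d = if n = 1 then 1 else 0 := by
  have h : ((moebius : ArithmeticFunction ℤ) * (zeta : ArithmeticFunction ℤ)) n = (1 : ArithmeticFunction ℤ) n := by
    rw [moebius_mul_coe_zeta]
  rw [coe_mul_zeta_apply, one_apply] at h
  exact h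

theorem roots_sum (n : ℕ) (hn : n ≠ 0) :
    ∑ z ∈ Polynomial.nthRootsFinset n (1 : ℂ), z = if n = 1 then 1 else 0 := by
  have hpos : 0 < n := Nat.pos_of_ne_zero hn
  split_ifs with h
  · subst h
    have : Polynomial.nthRootsFinset 1 (1 : ℂ) = {1} := by
      ext z
      rw [Polynomial.mem_nthRootsFinset (by norm_num), pow_one, Finset.mem_singleton]
    rw [this, Finset.sum_singleton]
  · have hprim := Complex.isPrimitiveRoot_exp n hn
    obtain ⟨ζ, hζ⟩ : ∃ ζ : ℂ, ζ = Complex.exp (2 * Real.pi * Complex.I / n) := ⟨_, rfl⟩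
    rw [← hζ] at hprim
    have h1 : ∑ z ∈ Polynomial.nthRootsFinset n (1 : ℂ), z =
        ∑ z ∈ Polynomial.nthRootsFinset n (1 : ℂ), ζ * z := by
      symm
      apply Finset.sum_nbij' (fun z => ζ * z) (fun z => ζ⁻¹ * z)
      · intro z hz
        rw [Polynomial.mem_nthRootsFinset hpos] at hz ⊢
        rw [mul_pow, hz, hprim.pow_eq_one, one_mul]
      · intro z hz
        rw [Polynomial.mem_nthRootsFinset hpos] at hz ⊢
        rw [mul_pow, hz, inv_pow, hprim.pow_eq_one, inv_one, one_mul]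
      · intro z _
        rw [inv_mul_cancel_left₀ (hprim.ne_zero hn)]
      · intro z _
        rw [mul_inv_cancel_left₀ (hprim.ne_zero hn)]
      · intro z _
        rfl
    rw [← Finset.mul_sum] at h1
    have h2 : (1 - ζ) * ∑ z ∈ Polynomial.nthRootsFinset n (1 : ℂ), z = 0 := by
      linear_combination h1
    rcases mul_eq_zero.1 h2 with h3 | h3
    · exfalso
      have h4 : ζ = 1 := by linear_combination -h3
      rw [h4] at hprim
      exact h (hprim.unique IsPrimitiveRoot.one)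
    · exact h3

open ArithmeticFunction in
theorem prim_sum (n : ℕ) (hn : n ≠ 0) :
    ∑ z ∈ primitiveRoots n ℂ, z = ((moebius n : ℤ) : ℂ) := by
  induction n using Nat.strong_induction_on with
  | _ n ih =>
    have hn' : n ∈ n.divisors := Nat.mem_divisors_self n hn
    have h1 := roots_sum n hn
    rw [IsPrimitiveRoot.nthRoots_one_eq_biUnion_primitiveRoots, Finset.sum_biUnion (by
      intro a _ b _ hab
      exact IsPrimitiveRoot.disjoint hab)] at h1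
    have h2 := moebius_sum n hn
    rw [← Finset.add_sum_erase _ _ hn'] at h1 h2
    have h3 : ∑ x ∈ n.divisors.erase n, ∑ z ∈ primitiveRoots x ℂ, z =
        ((∑ x ∈ n.divisors.erase n, moebius x : ℤ) : ℂ) := by
      push_cast
      apply Finset.sum_congr rfl
      intro d hd
      rw [Finset.mem_erase, Nat.mem_divisors] at hd
      have hdn : d < n := lt_of_le_of_ne (Nat.le_of_dvd (Nat.pos_of_ne_zero hn) hd.2.1) hd.1
      have hd0 : d ≠ 0 := by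
        rintro rfl
        exact hn (Nat.eq_zero_of_zero_dvd hd.2.1)
      exact ih d hdn hd0
    rw [h3] at h1
    have h4 : ((moebius n + ∑ x ∈ n.divisors.erase n, moebius x : ℤ) : ℂ) =
        (((if n = 1 then 1 else 0 : ℤ)) : ℂ) := by rw [h2]
    push_cast at h4 h1
    split_ifs at h4 h1 with h5
    · push_cast at h4
      linear_combination h1 - h4
    · push_cast at h4
      linear_combination h1 - h4

open ArithmeticFunction in
theorem ramanujan (q p : ℕ) (hq : q ≠ 0) (hp : Nat.Coprime p q) :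
    ∑ a ∈ (range q).filter (fun a => Nat.Coprime a q), ee ((p : ℝ) * ((a : ℝ) / q)) =
      ((moebius q : ℤ) : ℂ) := by
  rw [← prim_sum q hq]
  have hprim := Complex.isPrimitiveRoot_exp_of_coprime p q hq hp
  have hee : Complex.exp (2 * Real.pi * Complex.I * ((p : ℂ) / q)) = ee ((p : ℝ) / q) := by
    unfold ee
    congr 1
    push_cast
    ring
  rw [hee] at hprim
  have hne : NeZero q := ⟨hq⟩
  apply Finset.sum_bij (fun a _ => ee ((p : ℝ) / q) ^ a)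
  · intro a ha
    rw [Finset.mem_filter, Finset.mem_range] at ha
    rw [mem_primitiveRoots (Nat.pos_of_ne_zero hq)]
    exact hprim.pow_of_coprime a ha.2
  · intro a ha b hb hab
    rw [Finset.mem_filter, Finset.mem_range] at ha hb
    exact hprim.pow_inj ha.1 hb.1 hab
  · intro z hz
    rw [mem_primitiveRoots (Nat.pos_of_ne_zero hq), hprim.isPrimitiveRoot_iff] at hz
    obtain ⟨i, hi, hic, rfl⟩ := hz
    exact ⟨i, by rw [Finset.mem_filter, Finset.mem_range]; exact ⟨hi, hic⟩, rfl⟩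
  · intro a _
    rw [← ee_nat_mul]
    congr 1
    ring

/-! ### representation of `G` -/

theorem mem_RR {z Q : ℕ} {x : ℕ × ℕ} (hx : x ∈ RR z Q) : 1 ≤ x.1 ∧ x.1 ≤ Q := by
  unfold RR at hx
  rw [Finset.mem_filter, Finset.mem_product, Finset.mem_Icc] at hx
  exact hx.1.1

theorem card_RR (z Q : ℕ) : (RR z Q).card ≤ Q * Q := by
  unfold RR
  refine (Finset.card_filter_le _ _).trans ?_
  rw [Finset.card_product, Nat.card_Icc, Finset.card_range]
  simp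

theorem GG_rep (z Q p : ℕ) (hp : p.Prime) (hpQ : Q < p) :
    ((GG z Q : ℝ) : ℂ) = ∑ x ∈ RR z Q, (((ArithmeticFunction.moebius x.1 : ℤ) : ℂ) /
      ((Nat.totient x.1 : ℕ) : ℂ)) * ee ((p : ℝ) * ((x.2 : ℝ) / x.1)) := by
  unfold RR GG
  rw [Finset.sum_filter, Finset.sum_filter, Finset.sum_product]
  push_cast
  apply Finset.sum_congr rfl
  intro q hq
  rw [Finset.mem_Icc] at hq
  have hq0 : q ≠ 0 := by omega
  have hcop : Nat.Coprime p q := by
    rw [hp.coprime_iff_not_dvd]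
    intro hd
    have := Nat.le_of_dvd (by omega) hd
    omega
  split_ifs with hc
  · have e1 : ∀ a : ℕ, (Squarefree q ∧ (∀ p ∈ q.primeFactors, z < p) ∧ a < q ∧ Nat.Coprime a q) ↔
        (a < q ∧ Nat.Coprime a q) := by
      intro a
      exact ⟨fun h => h.2.2, fun h => ⟨hc.1, hc.2, h⟩⟩
    simp only [e1]
    rw [← Finset.sum_filter]
    have e2 : (range Q).filter (fun a => a < q ∧ Nat.Coprime a q) =
        (range q).filter (fun a => Nat.Coprime a q) := by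
      ext a
      rw [Finset.mem_filter, Finset.mem_filter, Finset.mem_range, Finset.mem_range]
      constructor
      · rintro ⟨_, h2, h3⟩
        exact ⟨h2, h3⟩
      · rintro ⟨h2, h3⟩
        exact ⟨by omega, h2, h3⟩
    rw [e2, ← Finset.mul_sum, ramanujan q p hq0 hcop]
    have e3 : ((ArithmeticFunction.moebius q : ℤ) : ℂ) * ((ArithmeticFunction.moebius q : ℤ) : ℂ) = 1 := by
      have h1 := ArithmeticFunction.moebius_sq_eq_one_of_squarefree hc.1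
      have h2 : (((ArithmeticFunction.moebius q) ^ 2 : ℤ) : ℂ) = 1 := by rw [h1]; norm_num
      rw [← h2]
      push_cast
      ring
    rw [div_mul_eq_mul_div, e3]
    push_cast
    rfl
  · symm
    apply Finset.sum_eq_zero
    intro a _
    rw [if_neg]
    rintro ⟨h1, h2, _⟩
    exact hc ⟨h1, h2⟩

theorem GG_ge_one (z Q : ℕ) (hQ : 1 ≤ Q) : 1 ≤ GG z Q := by
  unfold GG
  have h1 : (1 : ℕ) ∈ (Icc 1 Q).filter (fun q => Squarefree q ∧ ∀ p ∈ q.primeFactors, z < p) := by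
    rw [Finset.mem_filter, Finset.mem_Icc]
    refine ⟨⟨le_refl _, hQ⟩, squarefree_one, ?_⟩
    intro p hp
    simp at hp
  have h2 := Finset.single_le_sum (f := fun q : ℕ => (1 : ℝ) / (Nat.totient q : ℝ))
    (fun q _ => by positivity) h1
  simp only [Nat.totient_one, Nat.cast_one, div_one] at h2
  exact h2

/-! ### near pairs -/

theorem gap (Q : ℕ) (x x' y y' : ℕ × ℕ) (hx : 1 ≤ x.1 ∧ x.1 ≤ Q) (hx' : 1 ≤ x'.1 ∧ x'.1 ≤ Q)
    (hy : 1 ≤ y.1 ∧ y.1 ≤ Q) (hy' : 1 ≤ y'.1 ∧ y'.1 ≤ Q) (n m : ℤ) (s : ℝ)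
    (h1 : |s + (x.2 : ℝ) / x.1 - (x'.2 : ℝ) / x'.1 - n| < 1 / (2 * (Q : ℝ) ^ 4))
    (h2 : |s + (y.2 : ℝ) / y.1 - (y'.2 : ℝ) / y'.1 - m| < 1 / (2 * (Q : ℝ) ^ 4)) :
    (x.2 : ℝ) / x.1 - (x'.2 : ℝ) / x'.1 - ((y.2 : ℝ) / y.1 - (y'.2 : ℝ) / y'.1) = ((n - m : ℤ) : ℝ) := by
  obtain ⟨q, a⟩ := x
  obtain ⟨q', a'⟩ := x'
  obtain ⟨u, b⟩ := y
  obtain ⟨u', b'⟩ := y'
  simp only at *
  have q0 : (0 : ℝ) < q := by exact_mod_cast hx.1
  have q0' : (0 : ℝ) < q' := by exact_mod_cast hx'.1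
  have u0 : (0 : ℝ) < u := by exact_mod_cast hy.1
  have u0' : (0 : ℝ) < u' := by exact_mod_cast hy'.1
  have hQ0 : (0 : ℝ) < Q := by
    have : 0 < Q := by omega
    exact_mod_cast this
  obtain ⟨r, hr⟩ : ∃ r : ℝ, r = (a : ℝ) / q - (a' : ℝ) / q' - ((b : ℝ) / u - (b' : ℝ) / u') - ((n - m : ℤ) : ℝ) :=
    ⟨_, rfl⟩
  obtain ⟨D, hD⟩ : ∃ D : ℝ, D = (q : ℝ) * q' * u * u' := ⟨_, rfl⟩
  have hD0 : 0 < D := by rw [hD]; positivity
  have hDQ : D ≤ (Q : ℝ) ^ 4 := by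
    have a1 : (q : ℝ) ≤ Q := by exact_mod_cast hx.2
    have a2 : (q' : ℝ) ≤ Q := by exact_mod_cast hx'.2
    have a3 : (u : ℝ) ≤ Q := by exact_mod_cast hy.2
    have a4 : (u' : ℝ) ≤ Q := by exact_mod_cast hy'.2
    calc D = (q : ℝ) * q' * u * u' := hD
      _ ≤ (Q : ℝ) * Q * Q * Q := by gcongr
      _ = (Q : ℝ) ^ 4 := by ring
  have hr1 : |r| < 1 / (Q : ℝ) ^ 4 := by
    have e : r = (s + (a : ℝ) / q - (a' : ℝ) / q' - n) - (s + (b : ℝ) / u - (b' : ℝ) / u' - m) := by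
      rw [hr]
      push_cast
      ring
    rw [e]
    calc |(s + (a : ℝ) / q - (a' : ℝ) / q' - n) - (s + (b : ℝ) / u - (b' : ℝ) / u' - m)|
        ≤ |s + (a : ℝ) / q - (a' : ℝ) / q' - n| + |s + (b : ℝ) / u - (b' : ℝ) / u' - m| := abs_sub _ _
      _ < 1 / (2 * (Q : ℝ) ^ 4) + 1 / (2 * (Q : ℝ) ^ 4) := by linarith
      _ = 1 / (Q : ℝ) ^ 4 := by field_simp; norm_num
  obtain ⟨N, hN⟩ : ∃ N : ℤ, N = a * q' * u * u' - a' * q * u * u' - (b * q * q' * u' - b' * q * q' * u) -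
    (n - m) * (q * q' * u * u') := ⟨_, rfl⟩
  have hNr : (N : ℝ) = D * r := by
    rw [hN, hD, hr]
    push_cast
    field_simp
  have hN1 : |(N : ℝ)| < 1 := by
    rw [hNr, abs_mul, abs_of_pos hD0]
    calc D * |r| ≤ (Q : ℝ) ^ 4 * |r| := mul_le_mul_of_nonneg_right hDQ (abs_nonneg _)
      _ < (Q : ℝ) ^ 4 * (1 / (Q : ℝ) ^ 4) := mul_lt_mul_of_pos_left hr1 (by positivity)
      _ = 1 := by field_simp
  have hN0 : N = 0 := by
    have : |N| < 1 := by exact_mod_cast hN1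
    exact Int.abs_lt_one_iff.1 this
  rw [hN0] at hNr
  have hr0 : r = 0 := by
    rcases mul_eq_zero.1 (by rw [← hNr]; norm_num : D * r = 0) with h | h
    · exact absurd h hD0.ne'
    · exact h
  rw [hr0] at hr
  linarith

open Classical in
theorem W_bound (ha : J5aStmt) (z Q L : ℕ) (hz : 3 ≤ z) (hQ : 1 ≤ Q) (t0 : ℝ) :
    ∑ x ∈ RR z Q, ∑ x' ∈ RR z Q, (1 / (Nat.totient x.1 : ℝ)) * (1 / (Nat.totient x'.1 : ℝ)) *
      KD L (t0 + (x.2 : ℝ) / x.1 - (x'.2 : ℝ) / x'.1) ≤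
    (Q : ℝ) ^ 12 + (L : ℝ) ^ 2 * (3 * GG z Q / z) + GG z Q * KD L t0 := by
  have hQ0 : (0 : ℝ) < Q := by exact_mod_cast hQ
  have hz0 : (0 : ℝ) < z := by
    have : 0 < z := by omega
    exact_mod_cast this
  have hG := GG_ge_one z Q hQ
  have hw : ∀ x ∈ RR z Q, 0 ≤ 1 / (Nat.totient x.1 : ℝ) ∧ 1 / (Nat.totient x.1 : ℝ) ≤ 1 := by
    intro x hx
    have h1 := (mem_RR hx).1
    have h2 : 0 < Nat.totient x.1 := Nat.totient_pos.2 (by omega)
    have h3 : (1 : ℝ) ≤ Nat.totient x.1 := by exact_mod_cast h2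
    refine ⟨by positivity, ?_⟩
    rw [div_le_one (by linarith)]
    exact h3
  have hfar : ∀ x ∈ RR z Q, ∀ x' ∈ RR z Q,
      (∀ n : ℤ, 1 / (2 * (Q : ℝ) ^ 4) ≤ |t0 + (x.2 : ℝ) / x.1 - (x'.2 : ℝ) / x'.1 - n|) →
      (1 / (Nat.totient x.1 : ℝ)) * (1 / (Nat.totient x'.1 : ℝ)) *
      KD L (t0 + (x.2 : ℝ) / x.1 - (x'.2 : ℝ) / x'.1) ≤ (Q : ℝ) ^ 8 := by
    intro x hx x' hx' h
    have h1 := KD_far L _ _ (by positivity) h
    have h2 : 1 / (4 * (1 / (2 * (Q : ℝ) ^ 4)) ^ 2) = (Q : ℝ) ^ 8 := by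
      field_simp
      norm_num
    rw [h2] at h1
    have h3 := hw x hx
    have h4 := hw x' hx'
    have h5 : (1 / (Nat.totient x.1 : ℝ)) * (1 / (Nat.totient x'.1 : ℝ)) ≤ 1 :=
      mul_le_one₀ h3.2 h4.1 h4.2
    calc _ ≤ 1 * KD L (t0 + (x.2 : ℝ) / x.1 - (x'.2 : ℝ) / x'.1) :=
          mul_le_mul_of_nonneg_right h5 (KD_nonneg _ _)
      _ ≤ (Q : ℝ) ^ 8 := by rw [one_mul]; exact h1
  have hcard : ∑ x ∈ RR z Q, ∑ x' ∈ RR z Q, (Q : ℝ) ^ 8 ≤ (Q : ℝ) ^ 12 := by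
    rw [Finset.sum_const, Finset.sum_const, nsmul_eq_mul, nsmul_eq_mul]
    have h1 : ((RR z Q).card : ℝ) ≤ Q * Q := by exact_mod_cast card_RR z Q
    calc ((RR z Q).card : ℝ) * (((RR z Q).card : ℝ) * (Q : ℝ) ^ 8) ≤ (Q * Q) * ((Q * Q) * (Q : ℝ) ^ 8) := by
          gcongr
      _ = (Q : ℝ) ^ 12 := by ring
  by_cases hnear : ∃ y ∈ RR z Q, ∃ y' ∈ RR z Q, ∃ m : ℤ,
      |t0 + (y.2 : ℝ) / y.1 - (y'.2 : ℝ) / y'.1 - m| < 1 / (2 * (Q : ℝ) ^ 4)
  · obtain ⟨y, hy, y', hy', m, hm⟩ := hnear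
    obtain ⟨β, hβ⟩ : ∃ β : ℝ, β = (y.2 : ℝ) / y.1 - (y'.2 : ℝ) / y'.1 := ⟨_, rfl⟩
    have hJ := ha z Q hz hQ β
    have hterm : ∀ x ∈ RR z Q, ∀ x' ∈ RR z Q,
        (1 / (Nat.totient x.1 : ℝ)) * (1 / (Nat.totient x'.1 : ℝ)) *
        KD L (t0 + (x.2 : ℝ) / x.1 - (x'.2 : ℝ) / x'.1) ≤ (Q : ℝ) ^ 8 +
        (if ∃ n : ℤ, (x.2 : ℝ) / x.1 - (x'.2 : ℝ) / x'.1 - β = n then
          (1 : ℝ) / ((Nat.totient x.1 : ℝ) * (Nat.totient x'.1 : ℝ)) else 0) * KD L (t0 + β) := by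
      intro x hx x' hx'
      have hif : 0 ≤ (if ∃ n : ℤ, (x.2 : ℝ) / x.1 - (x'.2 : ℝ) / x'.1 - β = n then
          (1 : ℝ) / ((Nat.totient x.1 : ℝ) * (Nat.totient x'.1 : ℝ)) else 0) * KD L (t0 + β) := by
        apply mul_nonneg _ (KD_nonneg _ _)
        split_ifs
        · positivity
        · exact le_refl _
      by_cases hxn : ∀ n : ℤ, 1 / (2 * (Q : ℝ) ^ 4) ≤ |t0 + (x.2 : ℝ) / x.1 - (x'.2 : ℝ) / x'.1 - n|
      · have := hfar x hx x' hx' hxn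
        linarith
      · push Not at hxn
        obtain ⟨n, hn⟩ := hxn
        have hg := gap Q x x' y y' (mem_RR hx) (mem_RR hx') (mem_RR hy) (mem_RR hy') n m t0 hn hm
        rw [← hβ] at hg
        rw [if_pos ⟨n - m, hg⟩]
        have e1 : t0 + (x.2 : ℝ) / x.1 - (x'.2 : ℝ) / x'.1 = (t0 + β) + ((n - m : ℤ) : ℝ) := by
          rw [← hg]
          ring
        rw [e1, KD_add_int]
        have e2 : (1 / (Nat.totient x.1 : ℝ)) * (1 / (Nat.totient x'.1 : ℝ)) =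
            (1 : ℝ) / ((Nat.totient x.1 : ℝ) * (Nat.totient x'.1 : ℝ)) := by
          rw [div_mul_div_comm, one_mul]
        rw [e2]
        have : (0 : ℝ) ≤ (Q : ℝ) ^ 8 := by positivity
        linarith
    have hsum : ∑ x ∈ RR z Q, ∑ x' ∈ RR z Q, (1 / (Nat.totient x.1 : ℝ)) * (1 / (Nat.totient x'.1 : ℝ)) *
        KD L (t0 + (x.2 : ℝ) / x.1 - (x'.2 : ℝ) / x'.1) ≤ (Q : ℝ) ^ 12 +
        (if ∃ n : ℤ, β = n then GG z Q else 3 * GG z Q / z) * KD L (t0 + β) := by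
      calc _ ≤ ∑ x ∈ RR z Q, ∑ x' ∈ RR z Q, ((Q : ℝ) ^ 8 +
            (if ∃ n : ℤ, (x.2 : ℝ) / x.1 - (x'.2 : ℝ) / x'.1 - β = n then
            (1 : ℝ) / ((Nat.totient x.1 : ℝ) * (Nat.totient x'.1 : ℝ)) else 0) * KD L (t0 + β)) :=
            Finset.sum_le_sum fun x hx => Finset.sum_le_sum fun x' hx' => hterm x hx x' hx'
        _ = ∑ x ∈ RR z Q, ∑ x' ∈ RR z Q, (Q : ℝ) ^ 8 + (∑ x ∈ RR z Q, ∑ x' ∈ RR z Q,
            (if ∃ n : ℤ, (x.2 : ℝ) / x.1 - (x'.2 : ℝ) / x'.1 - β = n then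
            (1 : ℝ) / ((Nat.totient x.1 : ℝ) * (Nat.totient x'.1 : ℝ)) else 0)) * KD L (t0 + β) := by
            simp only [Finset.sum_add_distrib, Finset.sum_mul]
        _ ≤ _ := add_le_add hcard (mul_le_mul_of_nonneg_right hJ (KD_nonneg _ _))
    refine hsum.trans ?_
    split_ifs with hβi
    · obtain ⟨n, hn⟩ := hβi
      rw [hn, KD_add_int]
      have : 0 ≤ (L : ℝ) ^ 2 * (3 * GG z Q / z) := by positivity
      linarith
    · have h1 := KD_le L (t0 + β)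
      have h2 : 0 ≤ 3 * GG z Q / z := by positivity
      have h3 : 0 ≤ GG z Q * KD L t0 := mul_nonneg (by linarith) (KD_nonneg _ _)
      have h4 := mul_le_mul_of_nonneg_left h1 h2
      linarith
  · have hall : ∀ x ∈ RR z Q, ∀ x' ∈ RR z Q,
      ∀ n : ℤ, 1 / (2 * (Q : ℝ) ^ 4) ≤ |t0 + (x.2 : ℝ) / x.1 - (x'.2 : ℝ) / x'.1 - n| := by
      intro x hx x' hx' n
      by_contra hcon
      push Not at hcon
      exact hnear ⟨x, hx, x', hx', n, hcon⟩
    have h1 : 0 ≤ (L : ℝ) ^ 2 * (3 * GG z Q / z) := by positivity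
    have h3 : 0 ≤ GG z Q * KD L t0 := mul_nonneg (by linarith) (KD_nonneg _ _)
    have h4 : ∑ x ∈ RR z Q, ∑ x' ∈ RR z Q, (1 / (Nat.totient x.1 : ℝ)) * (1 / (Nat.totient x'.1 : ℝ)) *
        KD L (t0 + (x.2 : ℝ) / x.1 - (x'.2 : ℝ) / x'.1) ≤ (Q : ℝ) ^ 12 :=
      (Finset.sum_le_sum fun x hx => Finset.sum_le_sum fun x' hx' =>
        hfar x hx x' hx' (hall x hx x' hx')).trans hcard
    linarith

/-! ### Schur test -/

theorem schur {α : Type*} (X : Finset α) (c : α → ℝ) (U : α → α → ℝ)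
    (hU : ∀ a b, 0 ≤ U a b) (hsym : ∀ a b, U a b = U b a) (T : ℝ)
    (hT : ∀ a ∈ X, ∑ b ∈ X, U a b ≤ T) :
    ∑ a ∈ X, ∑ b ∈ X, c a * c b * U a b ≤ T * ∑ a ∈ X, c a ^ 2 := by
  have h1 : ∑ a ∈ X, ∑ b ∈ X, c a * c b * U a b ≤
      ∑ a ∈ X, ∑ b ∈ X, (c a ^ 2 / 2 * U a b + c b ^ 2 / 2 * U a b) := by
    apply Finset.sum_le_sum
    intro a _
    apply Finset.sum_le_sum
    intro b _
    have := hU a b
    nlinarith [mul_nonneg (sq_nonneg (c a - c b)) this]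
  have h2 : ∑ a ∈ X, ∑ b ∈ X, c b ^ 2 / 2 * U a b = ∑ a ∈ X, ∑ b ∈ X, c a ^ 2 / 2 * U a b := by
    rw [Finset.sum_comm]
    apply Finset.sum_congr rfl
    intro a _
    apply Finset.sum_congr rfl
    intro b _
    rw [hsym b a]
  have h3 : ∑ a ∈ X, ∑ b ∈ X, (c a ^ 2 / 2 * U a b + c b ^ 2 / 2 * U a b) =
      ∑ a ∈ X, c a ^ 2 * ∑ b ∈ X, U a b := by
    simp only [Finset.sum_add_distrib]
    rw [h2, ← Finset.sum_add_distrib]
    apply Finset.sum_congr rfl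
    intro a _
    rw [← Finset.mul_sum]
    ring
  calc _ ≤ _ := h1
    _ = _ := h3
    _ ≤ ∑ a ∈ X, c a ^ 2 * T := by
        apply Finset.sum_le_sum
        intro a ha
        exact mul_le_mul_of_nonneg_left (hT a ha) (sq_nonneg _)
    _ = T * ∑ a ∈ X, c a ^ 2 := by rw [← Finset.sum_mul, mul_comm]


/-! ### the main inequality -/

theorem main_ineq (ha : J5aStmt) (k M Q : ℕ) (hk : 1 ≤ k) (hkM : k ≤ M) (hM : M ≤ 100 * k)
    (hQ : 2 ≤ Q) (hQk : Q ^ 50 ≤ k) (X : Finset ℕ) (hX : X ⊆ range M) (hXne : X.Nonempty)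
    (c : ℕ → ℂ) :
    ∑ p ∈ PP k, ‖∑ ξ ∈ X, c ξ * ee ((ξ : ℝ) * p / M)‖ ^ 2 ≤
      503 * (k : ℝ) / GG (4 * X.card) Q * ∑ ξ ∈ X, ‖c ξ‖ ^ 2 := by
  classical
  have hr1 : 1 ≤ X.card := Finset.card_pos.2 hXne
  obtain ⟨z, hz⟩ : ∃ z, z = 4 * X.card := ⟨_, rfl⟩
  have hz3 : 3 ≤ z := by omega
  have hz0 : (0 : ℝ) < z := by
    have : 0 < z := by omega
    exact_mod_cast this
  rw [← hz]
  obtain ⟨G, hG⟩ : ∃ G, G = GG z Q := ⟨_, rfl⟩
  have hG1 : 1 ≤ G := by rw [hG]; exact GG_ge_one z Q (by omega)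
  rw [← hG]
  have hk0 : (0 : ℝ) < k := by exact_mod_cast hk
  have hMpos : 0 < M := by omega
  have hM0 : (0 : ℝ) < M := by exact_mod_cast hMpos
  have hM100 : (M : ℝ) ≤ 100 * k := by exact_mod_cast hM
  have hQ12 : (Q : ℝ) ^ 12 ≤ k := by
    have h1 : Q ^ 12 ≤ Q ^ 50 := Nat.pow_le_pow_right (by omega) (by norm_num)
    exact_mod_cast h1.trans hQk
  have hrM : (X.card : ℝ) ≤ 100 * k := by
    have h1 : X.card ≤ M := by
      have := Finset.card_le_card hX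
      rwa [Finset.card_range] at this
    exact_mod_cast h1.trans hM
  -- the weights
  obtain ⟨w, hw⟩ : ∃ w : ℕ × ℕ → ℂ, w = fun x => (((ArithmeticFunction.moebius x.1 : ℤ) : ℂ) /
      ((Nat.totient x.1 : ℕ) : ℂ)) := ⟨_, rfl⟩
  have hwn : ∀ x, ‖w x‖ ≤ 1 / (Nat.totient x.1 : ℝ) := by
    intro x
    rw [hw]
    simp only
    rw [norm_div, Complex.norm_natCast, Complex.norm_intCast]
    apply div_le_div_of_nonneg_right _ (by positivity)
    exact_mod_cast ArithmeticFunction.abs_moebius_le_one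
  obtain ⟨A, hA⟩ : ∃ A : Finset (ℕ × (ℕ × ℕ)), A = X ×ˢ RR z Q := ⟨_, rfl⟩
  obtain ⟨d, hd⟩ : ∃ d : ℕ × (ℕ × ℕ) → ℂ, d = fun a => c a.1 * w a.2 := ⟨_, rfl⟩
  obtain ⟨θ, hθ⟩ : ∃ θ : ℕ × (ℕ × ℕ) → ℝ, θ = fun a => (a.1 : ℝ) / M + (a.2.2 : ℝ) / a.2.1 := ⟨_, rfl⟩
  have hds := dual_sieve A d θ k
  -- left side
  have hleft : ∀ p ∈ PP k, ‖∑ a ∈ A, d a * ee (p * θ a)‖ ^ 2 =
      G ^ 2 * ‖∑ ξ ∈ X, c ξ * ee ((ξ : ℝ) * p / M)‖ ^ 2 := by
    intro p hp
    unfold PP at hp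
    rw [Finset.mem_filter, Finset.mem_Icc] at hp
    have hpQ : Q < p := by
      by_contra hcon
      push Not at hcon
      have h1 : p ^ 2 ≤ Q ^ 2 := Nat.pow_le_pow_left hcon 2
      have h2 : Q ^ 2 ≤ Q ^ 50 := Nat.pow_le_pow_right (by omega) (by norm_num)
      omega
    have h1 : ∑ a ∈ A, d a * ee (p * θ a) =
        (∑ ξ ∈ X, c ξ * ee ((ξ : ℝ) * p / M)) * ((G : ℝ) : ℂ) := by
      rw [hG, GG_rep z Q p hp.2.1 hpQ, hA, Finset.sum_product, Finset.sum_mul]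
      apply Finset.sum_congr rfl
      intro ξ _
      rw [Finset.mul_sum]
      apply Finset.sum_congr rfl
      intro x _
      rw [hd, hθ, hw]
      simp only
      have e : (p : ℝ) * ((ξ : ℝ) / M + (x.2 : ℝ) / x.1) = (ξ : ℝ) * p / M + p * ((x.2 : ℝ) / x.1) := by
        ring
      rw [e, ee_add]
      ring
    rw [h1, norm_mul, Complex.norm_real, Real.norm_eq_abs, abs_of_pos (by linarith)]
    ring
  -- right side
  obtain ⟨U, hU⟩ : ∃ U : ℕ → ℕ → ℝ, U = fun ξ ξ' : ℕ => (Q : ℝ) ^ 12 + ((2 * k : ℕ) : ℝ) ^ 2 * (3 * G / z) +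
      G * KD (2 * k) ((ξ : ℝ) / M - (ξ' : ℝ) / M) := ⟨_, rfl⟩
  have hU0 : ∀ a b, 0 ≤ U a b := by
    intro a b
    rw [hU]
    simp only
    have := KD_nonneg (2 * k) ((a : ℝ) / M - (b : ℝ) / M)
    positivity
  have hUs : ∀ a b, U a b = U b a := by
    intro a b
    rw [hU]
    simp only
    rw [← KD_neg, neg_sub]
  have hright : ∑ a ∈ A, ∑ b ∈ A, ‖d a‖ * ‖d b‖ * KD (2 * k) (θ a - θ b) ≤
      ∑ ξ ∈ X, ∑ ξ' ∈ X, ‖c ξ‖ * ‖c ξ'‖ * U ξ ξ' := by
    rw [hA, Finset.sum_product]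
    apply Finset.sum_le_sum
    intro ξ _
    have e1 : ∑ x ∈ RR z Q, ∑ b ∈ X ×ˢ RR z Q, ‖d (ξ, x)‖ * ‖d b‖ * KD (2 * k) (θ (ξ, x) - θ b) =
        ∑ ξ' ∈ X, ∑ x ∈ RR z Q, ∑ x' ∈ RR z Q,
          ‖d (ξ, x)‖ * ‖d (ξ', x')‖ * KD (2 * k) (θ (ξ, x) - θ (ξ', x')) := by
      rw [Finset.sum_comm, Finset.sum_product]
      apply Finset.sum_congr rfl
      intro ξ' _
      rw [Finset.sum_comm]
    rw [e1]
    apply Finset.sum_le_sum
    intro ξ' _
    have e2 : ∑ x ∈ RR z Q, ∑ x' ∈ RR z Q,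
          ‖d (ξ, x)‖ * ‖d (ξ', x')‖ * KD (2 * k) (θ (ξ, x) - θ (ξ', x')) ≤
        ‖c ξ‖ * ‖c ξ'‖ * ∑ x ∈ RR z Q, ∑ x' ∈ RR z Q, (1 / (Nat.totient x.1 : ℝ)) *
          (1 / (Nat.totient x'.1 : ℝ)) *
          KD (2 * k) (((ξ : ℝ) / M - (ξ' : ℝ) / M) + (x.2 : ℝ) / x.1 - (x'.2 : ℝ) / x'.1) := by
      rw [Finset.mul_sum]
      apply Finset.sum_le_sum
      intro x _
      rw [Finset.mul_sum]
      apply Finset.sum_le_sum
      intro x' _
      rw [hd, hθ]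
      simp only
      rw [norm_mul, norm_mul]
      have e3 : (ξ : ℝ) / M + (x.2 : ℝ) / x.1 - ((ξ' : ℝ) / M + (x'.2 : ℝ) / x'.1) =
          ((ξ : ℝ) / M - (ξ' : ℝ) / M) + (x.2 : ℝ) / x.1 - (x'.2 : ℝ) / x'.1 := by ring
      rw [e3]
      have h1 := hwn x
      have h2 := hwn x'
      have h3 : ‖w x‖ * ‖w x'‖ ≤ (1 / (Nat.totient x.1 : ℝ)) * (1 / (Nat.totient x'.1 : ℝ)) :=
        mul_le_mul h1 h2 (norm_nonneg _) (by positivity)
      have h4 := KD_nonneg (2 * k) (((ξ : ℝ) / M - (ξ' : ℝ) / M) + (x.2 : ℝ) / x.1 - (x'.2 : ℝ) / x'.1)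
      calc _ = (‖c ξ‖ * ‖c ξ'‖ * KD (2 * k) (((ξ : ℝ) / M - (ξ' : ℝ) / M) + (x.2 : ℝ) / x.1 - (x'.2 : ℝ) / x'.1)) *
            (‖w x‖ * ‖w x'‖) := by ring
        _ ≤ (‖c ξ‖ * ‖c ξ'‖ * KD (2 * k) (((ξ : ℝ) / M - (ξ' : ℝ) / M) + (x.2 : ℝ) / x.1 - (x'.2 : ℝ) / x'.1)) *
            ((1 / (Nat.totient x.1 : ℝ)) * (1 / (Nat.totient x'.1 : ℝ))) :=
            mul_le_mul_of_nonneg_left h3 (by positivity)
        _ = _ := by ring
    refine e2.trans ?_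
    apply mul_le_mul_of_nonneg_left _ (by positivity)
    have h5 := W_bound ha z Q (2 * k) hz3 (by omega) ((ξ : ℝ) / M - (ξ' : ℝ) / M)
    rw [hU]
    simp only
    rw [← hG] at h5
    exact h5
  -- row sums
  have hrow : ∀ ξ ∈ X, ∑ ξ' ∈ X, U ξ ξ' ≤ 503 * (k : ℝ) ^ 2 * G := by
    intro ξ _
    rw [hU]
    simp only
    rw [Finset.sum_add_distrib, Finset.sum_const, ← Finset.mul_sum, nsmul_eq_mul]
    have h1 : ∑ ξ' ∈ X, KD (2 * k) ((ξ : ℝ) / M - (ξ' : ℝ) / M) ≤ 2 * ((2 * k : ℕ) : ℝ) * M :=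
      (Finset.sum_le_sum_of_subset_of_nonneg hX (fun _ _ _ => KD_nonneg _ _)).trans
        (KD_sum (2 * k) M hMpos (by omega) ξ)
    have hzr : (z : ℝ) = 4 * X.card := by rw [hz]; push_cast; ring
    have hrpos : (0 : ℝ) < X.card := by exact_mod_cast hr1
    have h2 : (X.card : ℝ) * ((Q : ℝ) ^ 12 + ((2 * k : ℕ) : ℝ) ^ 2 * (3 * G / z)) =
        (X.card : ℝ) * (Q : ℝ) ^ 12 + 3 * (k : ℝ) ^ 2 * G := by
      rw [hzr]
      push_cast
      field_simp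
      ring
    rw [h2]
    have h3 : (X.card : ℝ) * (Q : ℝ) ^ 12 ≤ 100 * (k : ℝ) ^ 2 * G := by
      calc (X.card : ℝ) * (Q : ℝ) ^ 12 ≤ (100 * k) * k := by gcongr
        _ = 100 * (k : ℝ) ^ 2 * 1 := by ring
        _ ≤ 100 * (k : ℝ) ^ 2 * G := by gcongr
    have h4 : G * ∑ ξ' ∈ X, KD (2 * k) ((ξ : ℝ) / M - (ξ' : ℝ) / M) ≤ 400 * (k : ℝ) ^ 2 * G := by
      calc G * ∑ ξ' ∈ X, KD (2 * k) ((ξ : ℝ) / M - (ξ' : ℝ) / M) ≤ G * (2 * ((2 * k : ℕ) : ℝ) * M) := by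
            gcongr
        _ ≤ G * (2 * ((2 * k : ℕ) : ℝ) * (100 * k)) := by gcongr
        _ = 400 * (k : ℝ) ^ 2 * G := by push_cast; ring
    linarith
  have hsch := schur X (fun ξ => ‖c ξ‖) U hU0 hUs _ hrow
  rw [Finset.sum_congr rfl hleft, ← Finset.mul_sum] at hds
  have hfin := (hds.trans hright).trans hsch
  have hG0 : 0 < G := by linarith
  have h6 : (k : ℝ) * G ^ 2 * ∑ p ∈ PP k, ‖∑ ξ ∈ X, c ξ * ee ((ξ : ℝ) * p / M)‖ ^ 2 ≤
      (k : ℝ) * G ^ 2 * (503 * (k : ℝ) / G * ∑ ξ ∈ X, ‖c ξ‖ ^ 2) := by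
    calc _ = (k : ℝ) * (G ^ 2 * ∑ p ∈ PP k, ‖∑ ξ ∈ X, c ξ * ee ((ξ : ℝ) * p / M)‖ ^ 2) := by ring
      _ ≤ _ := hfin
      _ = _ := by field_simp
  exact le_of_mul_le_mul_left h6 (by positivity)

theorem exists_Q (k : ℕ) (hk : 2 ^ 100 ≤ k) : ∃ Q : ℕ, 2 ≤ Q ∧ Q ^ 50 ≤ k ∧
    Real.log k ≤ 100 * Real.log Q := by
  have h1 : (Nat.findGreatest (fun q => q ^ 50 ≤ k) k) ^ 50 ≤ k := by
    apply Nat.findGreatest_spec (P := fun q => q ^ 50 ≤ k) (m := 1)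
    · omega
    · omega
  obtain ⟨Q, hQ⟩ : ∃ Q, Q = Nat.findGreatest (fun q => q ^ 50 ≤ k) k := ⟨_, rfl⟩
  rw [← hQ] at h1
  have h4 : 4 ≤ Q := by
    rw [hQ]
    apply Nat.le_findGreatest
    · omega
    · calc 4 ^ 50 = 2 ^ 100 := by norm_num
        _ ≤ k := hk
  have h2 : k < (Q + 1) ^ 50 := by
    by_contra hcon
    push Not at hcon
    have h3 : Q + 1 ≤ k := by
      calc Q + 1 ≤ (Q + 1) ^ 50 := Nat.le_self_pow (by norm_num) _
        _ ≤ k := hcon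
    have := Nat.le_findGreatest (P := fun q => q ^ 50 ≤ k) h3 hcon
    omega
  refine ⟨Q, by omega, h1, ?_⟩
  have h5 : (k : ℝ) ≤ (Q : ℝ) ^ 100 := by
    have h6 : k ≤ Q ^ 100 := by
      calc k ≤ (Q + 1) ^ 50 := h2.le
        _ ≤ (Q ^ 2) ^ 50 := Nat.pow_le_pow_left (by nlinarith) 50
        _ = Q ^ 100 := by rw [← pow_mul]
    exact_mod_cast h6
  have hk0 : (0 : ℝ) < k := by
    have : 0 < k := lt_of_lt_of_le (by positivity) hk
    exact_mod_cast this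
  calc Real.log k ≤ Real.log ((Q : ℝ) ^ 100) := Real.log_le_log hk0 h5
    _ = 100 * Real.log Q := by
      rw [Real.log_pow]
      norm_num

theorem J5b (ha : J5aStmt) (hc : J5cStmt) : J5Stmt := by
  obtain ⟨c, hc0, hc⟩ := hc
  refine ⟨max 1 (100600 / c), le_max_left _ _, 2 ^ 100, by norm_num, ?_⟩
  intro k hk M hkM hM X hX hXne f
  obtain ⟨Q, hQ2, hQk, hlog⟩ := exists_Q k hk
  have hk2 : 2 ≤ k := le_trans (by norm_num) hk
  have hr1 : 1 ≤ X.card := Finset.card_pos.2 hXne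
  have hr1' : (1 : ℝ) ≤ X.card := by exact_mod_cast hr1
  have hk0 : (0 : ℝ) < k := by
    have : 0 < k := by omega
    exact_mod_cast this
  have hlogk : 0 < Real.log k := Real.log_pos (by exact_mod_cast (by omega : 1 < k))
  have hl2 : 0 < Real.log 2 := Real.log_pos (by norm_num)
  have hlog2r : Real.log 2 ≤ Real.log (2 * X.card) := Real.log_le_log (by norm_num) (by linarith)
  have hlog2r0 : 0 < Real.log (2 * X.card) := by linarith
  have hlog4r : Real.log ((4 * X.card : ℕ) : ℝ) ≤ 2 * Real.log (2 * X.card) := by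
    have e : ((4 * X.card : ℕ) : ℝ) = 2 * (2 * X.card) := by push_cast; ring
    rw [e, Real.log_mul (by norm_num) (by linarith)]
    linarith
  have hlog4r0 : 0 < Real.log ((4 * X.card : ℕ) : ℝ) := by
    apply Real.log_pos
    exact_mod_cast (by omega : 1 < 4 * X.card)
  have hG1 := GG_ge_one (4 * X.card) Q (by omega)
  have hG := hc (4 * X.card) Q (by omega) hQ2
  have hlow : c * Real.log k / (200 * Real.log (2 * X.card)) ≤ GG (4 * X.card) Q := by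
    refine le_trans ?_ hG
    rw [div_le_div_iff₀ (by positivity) hlog4r0]
    have h1 : c * Real.log k ≤ c * (100 * Real.log Q) := mul_le_mul_of_nonneg_left hlog hc0.le
    have hlQ : 0 ≤ Real.log Q := Real.log_nonneg (by exact_mod_cast (by omega : 1 ≤ Q))
    calc c * Real.log k * Real.log ((4 * X.card : ℕ) : ℝ)
        ≤ c * (100 * Real.log Q) * (2 * Real.log (2 * X.card)) := by
          apply mul_le_mul h1 hlog4r hlog4r0.le (by positivity)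
      _ = c * Real.log Q * (200 * Real.log (2 * X.card)) := by ring
  obtain ⟨B, hB⟩ : ∃ B : ℝ, B = max 1 (100600 / c) * ((k : ℝ) / Real.log k) * Real.log (2 * X.card) := ⟨_, rfl⟩
  have hB0 : 0 ≤ B := by
    rw [hB]
    positivity
  have hGB : 503 * (k : ℝ) / GG (4 * X.card) Q ≤ B := by
    have hlow0 : 0 < c * Real.log k / (200 * Real.log (2 * X.card)) := by positivity
    calc 503 * (k : ℝ) / GG (4 * X.card) Q ≤ 503 * (k : ℝ) / (c * Real.log k / (200 * Real.log (2 * X.card))) :=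
          div_le_div_of_nonneg_left (by positivity) hlow0 hlow
      _ = (100600 / c) * ((k : ℝ) / Real.log k) * Real.log (2 * X.card) := by
          field_simp
          norm_num
      _ ≤ B := by
          rw [hB]
          gcongr
          exact le_max_right _ _
  rw [← hB]
  have hd := duality X (PP k) (fun ξ p => ee ((ξ : ℝ) * p / M)) B hB0 (fun c => ?_) f
  · exact hd
  · refine (main_ineq ha k M Q (by omega) hkM hM hQ2 hQk X hX hXne c).trans ?_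
    exact mul_le_mul_of_nonneg_right hGB (by positivity)

end Pool.Agent.Helper602.MK.N_J5b

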